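import Pool.Agent.Y784.CP.A
import Pool.Agent.Z894.CP.Stm3

set_option autoImplicit false
set_option linter.unusedSectionVars false

/-! Project ND, part 5: the statement over `ℂ`, prime powers (helper686, after `mmain_holds` of
helper784) -/

open MvPolynomial

namespace Pool.Agent.Y686.ND

open Pool.Agent.TH922.KC hiding Psi
open Pool.Agent.Z894.CP Pool.Agent.Z894.LX Pool.Agent.Z894.ND
open Pool.Agent.Y784.CP (Psi_map Psi_hom)

section

variable {r m : ℕ} {H : Type}

lemma tot_eq [Fintype H] (D : Dat r m H) (i : Fin r) (h : ∀ x, D.it x ≠ i) :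
    D.tot i = D.t (Sum.inr i) := by
  unfold Dat.tot
  rw [Finset.filter_eq_empty_iff.2 (fun x _ => h x), Finset.sum_empty, add_zero]

/-- the special equation of an equation without hidden part -/
noncomputable def G0 (D : Dat r m H) (n p : ℕ) {R : Type} [CommRing R]
    (cf : (Σ φ : H ⊕ Fin r, It (Fin (n + 1)) (D.e p φ)) → R) (i : Fin r) :
    MvPolynomial (Fin (n + 1) ⊕ Fin r) R :=
  X (Sum.inr i) ^ (p ^ D.t (Sum.inr i)) -
    D.pv (fun i' => X (Sum.inr i')) (Sum.inr i) * Psi (Fin r) (D.e p) cf (Sum.inr i)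

lemma G0_hom (D : Dat r m H) (n p : ℕ) (hp : 0 < p) {R : Type} [CommRing R]
    (cf : (Σ φ : H ⊕ Fin r, It (Fin (n + 1)) (D.e p φ)) → R) (i : Fin r) :
    (G0 D n p cf i).IsHomogeneous (p ^ D.t (Sum.inr i)) := by
  unfold G0
  refine (isHomogeneous_X_pow _ _).sub ?_
  have h1 := Psi_hom (Fin r) (D.e p) cf (Sum.inr i)
  have h2 : 0 < p ^ D.t (Sum.inr i) := pow_pos hp _
  rcases h : D.prev (Sum.inr i) with _ | j
  · have e1 : D.e p (Sum.inr i) = p ^ D.t (Sum.inr i) := by
      unfold Dat.e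
      rw [h]
      simp
    have e2 : (D.pv (fun i' => X (Sum.inr i')) (Sum.inr i) :
        MvPolynomial (Fin (n + 1) ⊕ Fin r) R) = 1 := by
      unfold Dat.pv
      rw [h]
      rfl
    rw [e2, one_mul]
    rw [e1] at h1
    exact h1
  · have e1 : D.e p (Sum.inr i) = p ^ D.t (Sum.inr i) - 1 := by
      unfold Dat.e
      rw [h]
      simp
    have e2 : (D.pv (fun i' => X (Sum.inr i')) (Sum.inr i) :
        MvPolynomial (Fin (n + 1) ⊕ Fin r) R) = X (Sum.inr j) := by
      unfold Dat.pv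
      rw [h]
      rfl
    rw [e2]
    have h3 := (isHomogeneous_X R (Sum.inr j : Fin (n + 1) ⊕ Fin r)).mul h1
    rw [e1] at h3
    rwa [show 1 + (p ^ D.t (Sum.inr i) - 1) = p ^ D.t (Sum.inr i) by omega] at h3

lemma G0_map (D : Dat r m H) (n p : ℕ) {R R' : Type} [CommRing R] [CommRing R'] (f : R →+* R')
    (cf : (Σ φ : H ⊕ Fin r, It (Fin (n + 1)) (D.e p φ)) → R) (i : Fin r) :
    MvPolynomial.map f (G0 D n p cf i) = G0 D n p (fun k => f (cf k)) i := by
  unfold G0
  rw [map_sub, map_mul, map_pow, map_X, Psi_map]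
  congr 2
  unfold Dat.pv
  rcases D.prev (Sum.inr i) with _ | j
  · exact map_one _
  · exact map_X _ _

lemma norm_map [Fintype H] [DecidableEq H] (D : Dat r m H) {n p : ℕ} {κ κ' : Type} [Field κ]
    [Field κ'] (φ : κ →+* κ') (s : ℕ) (ω : κ)
    (cf : (Σ φ : H ⊕ Fin r, It (Fin (n + 1)) (D.e p φ)) → κ)
    (c' : D.Ex n p → κ) (i : {i : Fin r // ∃ h, D.it h = i})
    (E : MvPolynomial (Fin (n + 1) ⊕ Fin r) κ) (h : D.IsNorm s ω cf c' i E) :
    D.IsNorm s (φ ω) (fun k => φ (cf k)) (fun k => φ (c' k)) i (MvPolynomial.map φ E) := by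
  intro Ω _ θ x X' z hz
  rw [eval₂_map, h Ω (θ.comp φ) x X' z hz]
  refine Finset.prod_congr rfl fun l _ => ?_
  simp only [RingHom.comp_apply, map_pow]

end

theorem nmain_holds (h1 : NK1) (h2 : NNorm) (h3 : PAlg) : NMain := by
  classical
  intro n r hn d
  obtain ⟨K1, hcount, hroots, hindep⟩ := exists_countable_field
  set σ := (Σ i : Fin r, {μ : Fin (n + r + 1) →₀ ℕ // μ.degree = d i}) with hσ
  have hcp : Countable (MvPolynomial σ K1) := by
    rw [← Cardinal.mk_le_aleph0_iff]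
    refine MvPolynomial.cardinalMk_le_max.trans ?_
    simp only [max_le_iff, le_refl, and_true]
    exact ⟨Cardinal.mk_le_aleph0_iff.mpr hcount, Cardinal.mk_le_aleph0_iff.mpr inferInstance⟩
  have hne : Nonempty {p : MvPolynomial σ K1 // p ≠ 0} := ⟨⟨1, one_ne_zero⟩⟩
  obtain ⟨en, hen⟩ := exists_surjective_nat {p : MvPolynomial σ K1 // p ≠ 0}
  refine ⟨fun j => MvPolynomial.map K1.subtype (en j).1, fun j => ?_, ?_⟩
  · have h1 := (en j).2
    intro h
    exact h1 ((map_eq_zero_iff _ (MvPolynomial.map_injective _ K1.subtype.injective)).mp h)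
  intro f hfh hbad I hI hIp hdim hfI p m s H _ _ D hp hs hnm hnp hD hdd
  have : Fact p.Prime := ⟨hp⟩
  have hind : AlgebraicIndependent K1 (fun x : σ => coeff x.2.1 (f x.1)) := by
    rw [algebraicIndependent_iff]
    intro p hp
    by_contra hp0
    obtain ⟨l, hl⟩ := hen ⟨p, hp0⟩
    apply hbad l
    change MvPolynomial.eval _ (MvPolynomial.map K1.subtype (en l).1) = 0
    rw [hl, MvPolynomial.eval_map]
    exact hp
  have hQ0 : 0 < p ^ s := pow_pos hp.pos _
  obtain ⟨ω, hω⟩ := hroots (p ^ s) hQ0.ne'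
  obtain ⟨c0, hc0⟩ := hindep ((Σ φ : H ⊕ Fin r, It (Fin (n + 1)) (D.e p φ)) ⊕ D.Ex n p)
  choose E hEh hEn using h2 K1 p n r m s H D hD ω hω (fun k => c0 (Sum.inl k))
    (fun k => c0 (Sum.inr k))
  -- the special equations
  let F0 : Fin r → MvPolynomial (Fin (n + 1) ⊕ Fin r) K1 := fun i =>
    if h : ∃ h, D.it h = i then (E ⟨i, h⟩) ^ (d i / p ^ D.tot i)
    else if D.used i then (G0 D n p (fun k => c0 (Sum.inl k)) i) ^ (d i / p ^ D.t (Sum.inr i))
    else X (Sum.inr i) ^ d i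
  have hF1 : ∀ i : {i : Fin r // ∃ h, D.it h = i}, F0 i.1 = (E i) ^ (d i.1 / p ^ D.tot i.1) := by
    intro i
    simp only [F0]
    rw [dif_pos i.2]
  have hF2 : ∀ i, (∀ h, D.it h ≠ i) → D.used i → F0 i =
      (G0 D n p (fun k => c0 (Sum.inl k)) i) ^ (d i / p ^ D.t (Sum.inr i)) := by
    intro i hi hu
    simp only [F0]
    rw [dif_neg (fun ⟨h, hh⟩ => hi h hh), if_pos hu]
  have hF3 : ∀ i, ¬ D.used i → F0 i = X (Sum.inr i) ^ d i := by
    intro i hu
    simp only [F0]
    rw [dif_neg (fun ⟨h, hh⟩ => hu (hh ▸ hD.itused h)), if_neg hu]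
  have hF0h : ∀ i, (F0 i).IsHomogeneous (d i) := by
    intro i
    by_cases hi : ∃ h, D.it h = i
    · have hu : D.used i := by
        obtain ⟨h, hh⟩ := hi
        exact hh ▸ hD.itused h
      rw [hF1 ⟨i, hi⟩]
      have h4 := (hEh ⟨i, hi⟩).pow (d i / p ^ D.tot i)
      rwa [Nat.mul_div_cancel' (hdd i hu).2] at h4
    · have hi' : ∀ h, D.it h ≠ i := fun h hh => hi ⟨h, hh⟩
      by_cases hu : D.used i
      · rw [hF2 i hi' hu]
        have h4 := (G0_hom D n p hp.pos (fun k => c0 (Sum.inl k)) i).pow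
          (d i / p ^ D.t (Sum.inr i))
        have h5 := (hdd i hu).2
        rw [tot_eq D i hi'] at h5
        rwa [Nat.mul_div_cancel' h5] at h4
      · rw [hF3 i hu]
        exact isHomogeneous_X_pow _ _
  clear_value F0
  let ε := idx n r
  let f0 : Fin r → MvPolynomial (Fin (n + r + 1)) K1 := fun i => rename ε.symm (F0 i)
  obtain ⟨B1, φ1, hB1⟩ := specialise d K1 f hfh hind f0
    (fun i => IsHomogeneous.rename_isHomogeneous (hF0h i))
  have hBI := hB1 I hfI
  have hredh := red_hom B1 (I := I) hI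
  obtain ⟨C, hC⟩ := growth2 I hI hdim.le
  have : CharZero (IsLocalRing.ResidueField B1) := charZero_of_injective_ringHom φ1.injective
  have : IsAlgClosed (IsLocalRing.ResidueField B1) := h3 ℂ B1
  have hcf : AlgebraicIndependent ℚ (Sum.elim
      (fun k : (Σ φ : H ⊕ Fin r, It (Fin (n + 1)) (D.e p φ)) => φ1 (c0 (Sum.inl k)))
      (fun k : D.Ex n p => φ1 (c0 (Sum.inr k)))) := by
    have h4 := hc0.map' (f := φ1.toRatAlgHom) φ1.injective
    have h5 : (Sum.elim
      (fun k : (Σ φ : H ⊕ Fin r, It (Fin (n + 1)) (D.e p φ)) => φ1 (c0 (Sum.inl k)))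
      (fun k : D.Ex n p => φ1 (c0 (Sum.inr k)))) = φ1.toRatAlgHom ∘ c0 := by
      funext k
      rcases k with k | k <;> rfl
    rw [h5]
    exact h4
  have hmem : ∀ i, MvPolynomial.map φ1 (F0 i) ∈
      (red B1 I).comap (rename ε.symm : MvPolynomial (Fin (n + 1) ⊕ Fin r)
      (IsLocalRing.ResidueField B1) →ₐ[IsLocalRing.ResidueField B1] _) := by
    intro i
    rw [Ideal.mem_comap]
    have h2 := hBI i
    simp only [f0] at h2
    rw [MvPolynomial.map_rename] at h2
    exact h2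
  have hdp := div_of_prime (p ^ s) (1 : ℤ) ((red B1 I).comap
    (rename ε.symm : MvPolynomial (Fin (n + 1) ⊕ Fin r)
      (IsLocalRing.ResidueField B1) →ₐ[IsLocalRing.ResidueField B1] _)) (by
      intro P hP hPp hJP hPgr
      obtain ⟨K, hK⟩ := h1 (IsLocalRing.ResidueField B1) p n r m s hs hnm hnp H D hD
        (φ1 ω) (hω.map_of_injective φ1.injective) (fun k => φ1 (c0 (Sum.inl k)))
        (fun k => φ1 (c0 (Sum.inr k))) hcf P hP hPp hPgr
        (by
          intro i hi
          have h4 := hJP (hmem i)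
          rw [hF3 i hi, map_pow, map_X] at h4
          exact hPp.mem_of_pow_mem _ h4)
        (by
          intro i hi hh
          have h4 := hJP (hmem i)
          rw [hF2 i hh hi, map_pow, G0_map] at h4
          exact hPp.mem_of_pow_mem _ h4)
        (by
          intro i
          refine ⟨MvPolynomial.map φ1 (E i), ?_, norm_map D φ1 s ω _ _ i (E i) (hEn i)⟩
          have h4 := hJP (hmem i.1)
          rw [hF1 i, map_pow] at h4
          exact hPp.mem_of_pow_mem _ h4)
      exact ⟨K, fun t ht => by simpa using hK t ht⟩)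
    _ (hom_equiv ε hredh) le_rfl ⟨C, fun t => by rw [hf_equiv, red_hf B1 hI]; exact hC t⟩
  obtain ⟨K, hK⟩ := hdp
  refine ⟨K, fun k hk => ?_⟩
  have h1 := hK k hk
  rw [one_mul, hf_equiv, hf_equiv, red_hf B1 hI, red_hf B1 hI] at h1
  exact h1

end Pool.Agent.Y686.ND
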